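import Pool.Agent.Q248.RP.Weighted
import Pool.Agent.H207R2.BL.Minor

/-!
# Birkhoff-Lewis: one half of a plane graph, completed in all possible ways

Plane graphs `N ∪ M^*`, where `N` and `M` are graphs drawn in the closed upper half plane with the
same vertices on the axis and `M^*` is the mirror image of `M`: these are all plane graphs no edge
of which crosses the axis.  The edges may carry arbitrary real weights (Potts model, multivariate
Tutte polynomial); the chromatic polynomial belongs to the weights `-1`.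
-/

set_option autoImplicit false

namespace Pool.Agent.Results.MP_0d034c_co.CompletionsOfAHalf

open Polynomial Pool.Agent.H207R2.BL

/-- The set of the edges of a finite graph. -/
noncomputable def edges {T : Type} [Finite T] (G : SimpleGraph T) : Finset (Sym2 T) :=
  (Set.toFinite G.edgeSet).toFinset

/-- The number of connected components of the graph with the vertices `T` and the edges `A`. -/
noncomputable def components {T : Type} (A : Finset (Sym2 T)) : ℕ :=
  Nat.card (SimpleGraph.fromEdgeSet (A : Set (Sym2 T))).ConnectedComponent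

/-- The Potts partition function (multivariate Tutte polynomial) of a graph with edge weights `w`:
the sum of `(∏_{e ∈ A} w_e) q^{k(A)}` over all sets `A` of edges. -/
noncomputable def potts {T : Type} [Finite T] (G : SimpleGraph T) (w : Sym2 T → ℝ) (q : ℝ) : ℝ :=
  ∑ A ∈ (edges G).powerset, (∏ e ∈ A, w e) * q ^ components A

/-- The vertices of the first half `N` as vertices of `N ∪ M^*`. -/
def first {V W : Type} {n : ℕ} : V ⊕ Fin n → (V ⊕ W) ⊕ Fin n := Sum.map Sum.inl id

/-- The vertices of the second half `M` as vertices of `N ∪ M^*`. -/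
def second {V W : Type} {n : ℕ} : W ⊕ Fin n → (V ⊕ W) ⊕ Fin n := Sum.map Sum.inr id

open Classical in
/-- The Potts partition function of the multigraph `N ∪ M^*`, where the edges of `N` have the weights
`u` and those of `M` the weights `v`: an edge between two axis vertices which belongs to `N` and to
`M` is a pair of parallel edges. -/
noncomputable def pottsGlue {V W : Type} [Finite V] [Finite W] {n : ℕ}
    (N : SimpleGraph (V ⊕ Fin n)) (u : Sym2 (V ⊕ Fin n) → ℝ)
    (M : SimpleGraph (W ⊕ Fin n)) (v : Sym2 (W ⊕ Fin n) → ℝ) (q : ℝ) : ℝ :=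
  ∑ A ∈ (edges N).powerset, ∑ B ∈ (edges M).powerset, (∏ e ∈ A, u e) * (∏ e ∈ B, v e) *
    q ^ components (A.image (Sym2.map first) ∪ B.image (Sym2.map second))

/-- The edge `e` joins two vertices on the axis. -/
def OnAxis {V : Type} {n : ℕ} (e : Sym2 (V ⊕ Fin n)) : Prop := ∀ a ∈ e, ∃ i : Fin n, a = Sum.inr i

open Classical in
/-- The weights of the upper half `N` of the double `N ∪ N^*` with the weights `w`: an edge on the
axis of weight `w_e` is the union of two parallel edges of weight `√(1 + w_e) - 1`, one of which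
belongs to the upper half. -/
noncomputable def upper {V : Type} {n : ℕ} (w : Sym2 ((V ⊕ V) ⊕ Fin n) → ℝ)
    (e : Sym2 (V ⊕ Fin n)) : ℝ :=
  if OnAxis e then Real.sqrt (1 + w (Sym2.map first e)) - 1 else w (Sym2.map first e)

/-- **Reflection positivity at real `q ≥ 4`.**

* `family`: let `N_i` be finitely many finite graphs drawn in the closed upper half plane with the
  same `n` vertices on the axis, with arbitrary real edge weights `u_i`.  Then for all real `q ≥ 4`
  the matrix of the Potts partition functions of the plane graphs `N_i ∪ N_j^*` is positive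
  semidefinite.
* `double`: the Potts partition function of a mirror symmetric plane graph `N ∪ N^*` with mirror
  symmetric weights `w`, arbitrary real numbers outside the axis and at least `-1` on the axis, is
  nonnegative for all real `q ≥ 4`; more precisely `Z(N)^2 ≤ q^n Z(N ∪ N^*)`.
* `strict`: the chromatic polynomial of `N ∪ N^*` is positive at the real `q ≥ 4` as soon as, for
  one `M` with arbitrary real edge weights (for example `-1`), the partition function of
  `N ∪ M^*` (with the weights `-1` on `N`) is not zero at `q`.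
* `cut`: `P(N ∪ M^*, q)^2 ≤ P(N ∪ N^*, q) P(M ∪ M^*, q)` for the chromatic polynomials and
  all real `q ≥ 4`.
* `mult`: if `q ≥ 4` is a root of multiplicity at least `2 l` of the chromatic polynomial of
  `N ∪ N^*`, it is a root of multiplicity at least `l` of that of `N ∪ M^*`, for every `M`.
* `even`: the roots `q > 4` of the chromatic polynomial of `N ∪ N^*` have even multiplicities. -/
structure Conclusion : Prop where
  family : ∀ (n : ℕ) (J : Type) [Fintype J] (V : J → Type) [∀ i, Finite (V i)]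
    (N : ∀ i, SimpleGraph (V i ⊕ Fin n)), (∀ i, DrawnInHalfPlane (N i)) →
    ∀ (u : ∀ i, Sym2 (V i ⊕ Fin n) → ℝ) (q : ℝ), 4 ≤ q → ∀ a : J → ℝ,
    0 ≤ ∑ i, ∑ j, a i * a j * pottsGlue (N i) (u i) (N j) (u j) q
  double : ∀ (n : ℕ) (V : Type) [Finite V] (N : SimpleGraph (V ⊕ Fin n)), DrawnInHalfPlane N →
    ∀ w : Sym2 ((V ⊕ V) ⊕ Fin n) → ℝ,
    (∀ e ∈ N.edgeSet, w (Sym2.map first e) = w (Sym2.map second e)) →
    (∀ e ∈ N.edgeSet, OnAxis e → -1 ≤ w (Sym2.map first e)) → ∀ q : ℝ, 4 ≤ q →
    0 ≤ potts (glue N N) w q ∧ potts N (upper w) q ^ 2 ≤ q ^ n * potts (glue N N) w q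
  strict : ∀ (n : ℕ) (V W : Type) [Finite V] [Finite W] (N : SimpleGraph (V ⊕ Fin n))
    (M : SimpleGraph (W ⊕ Fin n)), DrawnInHalfPlane N → DrawnInHalfPlane M →
    ∀ (v : Sym2 (W ⊕ Fin n) → ℝ) (p : ℝ[X]), IsChrom (glue N N) p → ∀ q : ℝ, 4 ≤ q →
    pottsGlue N (fun _ => -1) M v q ≠ 0 → 0 < p.eval q
  cut : ∀ (n : ℕ) (V W : Type) [Finite V] [Finite W] (N : SimpleGraph (V ⊕ Fin n))
    (M : SimpleGraph (W ⊕ Fin n)), DrawnInHalfPlane N → DrawnInHalfPlane M →
    ∀ (p r s : ℝ[X]), IsChrom (glue N N) p → IsChrom (glue N M) r → IsChrom (glue M M) s →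
    ∀ q : ℝ, 4 ≤ q → r.eval q ^ 2 ≤ p.eval q * s.eval q
  mult : ∀ (n : ℕ) (V W : Type) [Finite V] [Finite W] (N : SimpleGraph (V ⊕ Fin n))
    (M : SimpleGraph (W ⊕ Fin n)), DrawnInHalfPlane N → DrawnInHalfPlane M →
    ∀ (p r : ℝ[X]), IsChrom (glue N N) p → IsChrom (glue N M) r → ∀ q : ℝ, 4 ≤ q → ∀ l : ℕ,
    (X - C q) ^ (2 * l) ∣ p → (X - C q) ^ l ∣ r
  even : ∀ (n : ℕ) (V : Type) [Finite V] (N : SimpleGraph (V ⊕ Fin n)), DrawnInHalfPlane N →
    ∀ (p : ℝ[X]), IsChrom (glue N N) p → ∀ q : ℝ, 4 < q → ∀ l : ℕ,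
    (X - C q) ^ (2 * l + 1) ∣ p → (X - C q) ^ (2 * l + 2) ∣ p

theorem mem_edges {T : Type} [Finite T] (G : SimpleGraph T) (e : Sym2 T) :
    e ∈ edges G ↔ e ∈ G.edgeSet := by
  unfold edges
  exact Set.Finite.mem_toFinset _

theorem components_eq {T : Type} (A : Finset (Sym2 T)) :
    components A = Pool.Agent.Q248.RP.kc A := rfl

theorem pottsGlue_eq {V W : Type} [Fintype V] [DecidableEq V] [Fintype W] [DecidableEq W] {n : ℕ}
    (N : SimpleGraph (V ⊕ Fin n)) (u : Sym2 (V ⊕ Fin n) → ℝ)
    (M : SimpleGraph (W ⊕ Fin n)) (v : Sym2 (W ⊕ Fin n) → ℝ) (q : ℝ) :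
    pottsGlue N u M v q = (Pool.Agent.Q248.RP.Gp (edges N) u (edges M) v).eval q := by
  unfold pottsGlue Pool.Agent.Q248.RP.Gp
  simp only [Polynomial.eval_finsetSum, Polynomial.eval_mul, Polynomial.eval_C,
    Polynomial.eval_pow, Polynomial.eval_X]
  refine Finset.sum_congr rfl (fun A _ => Finset.sum_congr rfl (fun B _ => ?_))
  rw [components_eq]
  congr 2
  have h1 : ∀ (i j : DecidableEq (Sym2 ((V ⊕ W) ⊕ Fin n))),
      Pool.Agent.Q248.RP.kc (@Union.union _ (@Finset.instUnion _ i)
        (@Finset.image _ _ i (Sym2.map first) A) (@Finset.image _ _ i (Sym2.map second) B)) =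
      Pool.Agent.Q248.RP.kc (@Union.union _ (@Finset.instUnion _ j)
        (@Finset.image _ _ j (Sym2.map first) A) (@Finset.image _ _ j (Sym2.map second) B)) := by
    intro i j
    rw [Subsingleton.elim i j]
  exact h1 _ _

theorem crossless {V : Type} {n : ℕ} {N : SimpleGraph (V ⊕ Fin n)} (h : DrawnInHalfPlane N) :
    Crossless N := by
  obtain ⟨f, γ, h1, h2, h3, h4, h5⟩ := h
  exact crossless_of_drawing N f γ h1 h2 h3 h4 h5

/-- a weighted half -/
noncomputable def toHf {V : Type} [Fintype V] [DecidableEq V] {n : ℕ} (N : SimpleGraph (V ⊕ Fin n))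
    (h : DrawnInHalfPlane N) (u : Sym2 (V ⊕ Fin n) → ℝ) : Pool.Agent.Q248.RP.Hf n where
  V := V
  N := N
  cr := crossless h
  S := edges N
  hS := fun e he => (mem_edges N e).1 he
  u := u

theorem fam (n : ℕ) (J : Type) [Fintype J] (V : J → Type) [∀ i, Finite (V i)]
    (N : ∀ i, SimpleGraph (V i ⊕ Fin n)) (hN : ∀ i, DrawnInHalfPlane (N i))
    (u : ∀ i, Sym2 (V i ⊕ Fin n) → ℝ) (q : ℝ) (hq : 4 ≤ q) (a : J → ℝ) :
    0 ≤ ∑ i, ∑ j, a i * a j * pottsGlue (N i) (u i) (N j) (u j) q := by
  classical
  have : ∀ i, Fintype (V i) := fun i => Fintype.ofFinite _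
  have h := Pool.Agent.Q248.RP.psdw V N (fun i => crossless (hN i)) (fun i => edges (N i))
    (fun i e he => (mem_edges (N i) e).1 he) u
    (fun i j => Pool.Agent.Q248.RP.Gp (edges (N i)) (u i) (edges (N j)) (u j))
    (fun i j k => Pool.Agent.Q248.RP.Gp_nat _ _ _ _ k) q hq a
  refine h.trans_eq ?_
  refine Finset.sum_congr rfl (fun i _ => Finset.sum_congr rfl (fun j _ => ?_))
  rw [pottsGlue_eq]

theorem cut2 {n : ℕ} {V W : Type} [Finite V] [Finite W] (N : SimpleGraph (V ⊕ Fin n))
    (M : SimpleGraph (W ⊕ Fin n)) (hN : DrawnInHalfPlane N) (hM : DrawnInHalfPlane M)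
    (u : Sym2 (V ⊕ Fin n) → ℝ) (v : Sym2 (W ⊕ Fin n) → ℝ) (q : ℝ) (hq : 4 ≤ q) :
    pottsGlue N u M v q ^ 2 ≤ pottsGlue N u N u q * pottsGlue M v M v q := by
  classical
  have : Fintype V := Fintype.ofFinite V
  have : Fintype W := Fintype.ofFinite W
  let H1 := toHf N hN u
  let H0 := toHf M hM v
  have key : ∀ x y : ℝ, 0 ≤ x * x * pottsGlue N u N u q + x * y * pottsGlue N u M v q +
      y * x * pottsGlue N u M v q + y * y * pottsGlue M v M v q := by
    intro x y
    have hc : ∀ a b : Bool, ∀ k : ℕ,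
        (cond a (cond b (Pool.Agent.Q248.RP.Gp (edges N) u (edges N) u)
          (Pool.Agent.Q248.RP.Gp (edges N) u (edges M) v))
          (cond b (Pool.Agent.Q248.RP.Gp (edges N) u (edges M) v)
          (Pool.Agent.Q248.RP.Gp (edges M) v (edges M) v))).eval (k : ℝ) =
        ∑ c : Fin n → Fin k, (cond a H1 H0).inn k c * (cond b H1 H0).inn k c := by
      intro a b k
      cases a <;> cases b
      · exact Pool.Agent.Q248.RP.Gp_nat _ _ _ _ k
      · refine (Pool.Agent.Q248.RP.Gp_nat _ _ _ _ k).trans ?_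
        exact Finset.sum_congr rfl (fun c _ => mul_comm _ _)
      · exact Pool.Agent.Q248.RP.Gp_nat _ _ _ _ k
      · exact Pool.Agent.Q248.RP.Gp_nat _ _ _ _ k
    have := Pool.Agent.Q248.RP.psdh (fun b : Bool => cond b H1 H0) _ hc q hq
      (fun b => cond b x y)
    simp only [Fintype.sum_bool, cond_true, cond_false] at this
    rw [pottsGlue_eq, pottsGlue_eq, pottsGlue_eq]
    linarith
  set A := pottsGlue N u N u q
  set B := pottsGlue N u M v q
  set D := pottsGlue M v M v q
  have hA : 0 ≤ A := by have := key 1 0; linarith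
  have hD : 0 ≤ D := by have := key 0 1; linarith
  by_contra hcon
  push Not at hcon
  rcases eq_or_lt_of_le hD with h0 | h0
  · have h1 := key B (-(A + 1) / 2)
    rw [← h0] at hcon h1
    have hB : 0 < B ^ 2 := by linarith
    nlinarith
  · have h1 := key D (-B)
    nlinarith

theorem chrom_eq {n : ℕ} {V W : Type} [Finite V] [Finite W] (N : SimpleGraph (V ⊕ Fin n))
    (M : SimpleGraph (W ⊕ Fin n)) (p : ℝ[X]) (hp : IsChrom (glue N M) p) (q : ℝ) :
    pottsGlue N (fun _ => -1) M (fun _ => -1) q = p.eval q := by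
  classical
  have : Fintype V := Fintype.ofFinite V
  have : Fintype W := Fintype.ofFinite W
  rw [pottsGlue_eq, Pool.Agent.Q248.RP.Gp_chrom N (edges N) (mem_edges N) M (edges M) (mem_edges M)
    p hp]

theorem result : Conclusion where
  family := fam
  double := by
    intro n V _ N hN w hsym hax q hq
    classical
    have : Fintype V := Fintype.ofFinite V
    have h := Pool.Agent.Q248.RP.potts N (crossless hN) (edges N) (mem_edges N) (edges (glue N N))
      (mem_edges (glue N N)) w (fun e he => hsym e ((mem_edges N e).1 he))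
      (fun e he => hax e ((mem_edges N e).1 he)) q hq
    have e1 : potts N (upper w) q = Pool.Agent.Q248.RP.Z (edges N)
        (Pool.Agent.Q248.RP.half w) q := rfl
    have e2 : potts (glue N N) w q = Pool.Agent.Q248.RP.Z (edges (glue N N)) w q := rfl
    rw [e1, e2]
    refine ⟨?_, h⟩
    have hq0 : 0 < q ^ n := pow_pos (by linarith) n
    by_contra hcon
    push Not at hcon
    have := mul_neg_of_pos_of_neg hq0 hcon
    nlinarith [sq_nonneg (Pool.Agent.Q248.RP.Z (edges N) (Pool.Agent.Q248.RP.half w) q)]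
  strict := by
    intro n V W _ _ N M hN hM v p hp q hq hne
    have h := cut2 N M hN hM (fun _ => -1) v q hq
    have h0 := cut2 N N hN hN (fun _ => -1) (fun _ => -1) q hq
    rw [chrom_eq N N p hp] at h
    have h1 : 0 < pottsGlue N (fun _ => -1) M v q ^ 2 := by positivity
    have h2 : 0 ≤ p.eval q := by
      have := fam n Unit (fun _ => V) (fun _ => N) (fun _ => hN) (fun _ _ => -1) q hq
        (fun _ => 1)
      simp only [Finset.univ_unique, Finset.sum_singleton, one_mul] at this
      rwa [chrom_eq N N p hp] at this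
    rcases eq_or_lt_of_le h2 with h3 | h3
    · rw [← h3] at h
      linarith
    · exact h3
  cut := by
    intro n V W _ _ N M hN hM p r s hp hr hs q hq
    have h := cut2 N M hN hM (fun _ => -1) (fun _ => -1) q hq
    rwa [chrom_eq N N p hp, chrom_eq N M r hr, chrom_eq M M s hs] at h
  mult := by
    intro n V W _ _ N M hN hM p r hp hr q hq l hl
    have hs := chr_spec (glue M M)
    refine Pool.Agent.Q248.RP.dvd_of_sq_le p r (chr (glue M M)) q ?_ l hl
    intro x hx
    have h := cut2 N M hN hM (fun _ => -1) (fun _ => -1) x (hq.trans hx)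
    rw [chrom_eq N N p hp, chrom_eq N M r hr, chrom_eq M M _ hs] at h
    rwa [mul_comm]
  even := by
    intro n V _ N hN p hp q hq l hl
    refine Pool.Agent.Q248.RP.dvd_even p q 4 hq ?_ l hl
    intro x hx
    have := fam n Unit (fun _ => V) (fun _ => N) (fun _ => hN) (fun _ _ => -1) x hx
        (fun _ => 1)
    simp only [Finset.univ_unique, Finset.sum_singleton, one_mul] at this
    rwa [chrom_eq N N p hp] at this

end Pool.Agent.Results.MP_0d034c_co.CompletionsOfAHalf
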