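import Pool.Agent.Q262.BL.Main

/-!
# Extending 5-colourings of planar graphs, and the chromatic polynomial near five

Let `P` be the chromatic polynomial of a planar graph `G` with `n` vertices.

* If `v` is a vertex of degree five, then at least three quarters of the proper 5-colourings of `G - v`
  extend to `G`; if it has degree four, then `G` has at least `4/3` times as many proper 5-colourings
  as `G - v`.
* `(1 - (2/3) n (5 - q)) P(5) ≤ P(q) ≤ P(5)` if `4 ≤ q ≤ 5` and `2 n (5 - q) ≤ 3`.
* `P(q) > 0` for all real `q > 4` with `q > 5 - 3/(2k)`, if every minor of `G` with more than `k`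
  vertices has a vertex of degree at most four (for example `k = n`).
* `|P(z) - P(5)| ≤ (exp((2/3) n |z - 5|) - 1) P(5)` for all complex `z`, so `P` has no zero in the disc
  `|z - 5| < (3 log 2)/(2 n)`.

Proof. Kempe changes: let `v` have degree five and let the five neighbours have different colours. If
at most two pairs of neighbours were not joined by Kempe chains, then `G` would contain a (weak) `K₅`,
with branch vertices `v` and four neighbours: three pairs at least are not joined. The corresponding
three Kempe changes lead to different colourings of `G - v` with four colours at the neighbours, and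
all colourings obtained in this way are different. With the expansion
`P(G, q) = (q - d) P(G - v, q) + ...` of the starting files (`Pool.Agent.Y865.RF`) an induction on `n`
gives the other statements; in the third one vertices of degree at most four are harmless, as all terms
of the expansion are then nonnegative.
-/

set_option autoImplicit false

namespace Pool.Agent.Results.MP_0d034c_co.ExtendingColourings

open Polynomial

/-- `G` can be drawn in the plane with non-crossing arcs: vertices are distinct points, every edge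
is an arc (an injective continuous curve) joining its two ends and avoiding all vertices in between,
and arcs of different edges do not meet in between. -/
def Planar {V : Type} (G : SimpleGraph V) : Prop :=
  ∃ (f : V → ℝ × ℝ) (γ : V → V → ℝ → ℝ × ℝ),
    Function.Injective f ∧
    (∀ u v : V, G.Adj u v →
      ContinuousOn (γ u v) (Set.Icc (0:ℝ) 1) ∧ Set.InjOn (γ u v) (Set.Icc (0:ℝ) 1) ∧
      γ u v 0 = f u ∧ γ u v 1 = f v ∧
      ∀ t ∈ Set.Ioo (0:ℝ) 1, ∀ w : V, γ u v t ≠ f w) ∧
    (∀ u v u' v' : V, G.Adj u v → G.Adj u' v' → s(u, v) ≠ s(u', v') →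
      ∀ t ∈ Set.Ioo (0:ℝ) 1, ∀ t' ∈ Set.Ioo (0:ℝ) 1, γ u v t ≠ γ u' v' t')

/-- `B` is nonempty and any two of its vertices are joined by a walk inside `B`. -/
def Connected {V : Type} (G : SimpleGraph V) (B : Set V) : Prop :=
  B.Nonempty ∧ ∀ x ∈ B, ∀ y ∈ B, ∃ w : G.Walk x y, ∀ z ∈ w.support, z ∈ B

/-- Every minor of `G` with more than `k` vertices has a vertex of degree at most four: whenever more
than `k` pairwise disjoint connected sets of vertices are given, one of them is joined by edges of `G`
to at most four of the others. -/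
def LargeMinorsDegLeFour {V : Type} (G : SimpleGraph V) (k : ℕ) : Prop :=
  ∀ (m : ℕ) (B : Fin m → Set V), k < m → (∀ i, Connected G (B i)) →
    (∀ i j, i ≠ j → Disjoint (B i) (B j)) →
    ∃ i, {j | j ≠ i ∧ ∃ x ∈ B i, ∃ y ∈ B j, G.Adj x y}.ncard ≤ 4

/-- the graph without the vertex `v` -/
def remove {V : Type} (G : SimpleGraph V) (v : V) : SimpleGraph {x : V // x ≠ v} :=
  G.comap Subtype.val

/-- the colouring `c` of the graph without `v` extends to the whole graph -/
def Extends {V : Type} {G : SimpleGraph V} {v : V} (c : (remove G v).Coloring (Fin 5)) : Prop :=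
  ∃ C : G.Coloring (Fin 5), ∀ x : {x : V // x ≠ v}, C x.1 = c x

theorem result (V : Type) [Finite V] (G : SimpleGraph V) (hG : Planar G) (p : ℝ[X])
    (hp : ∀ k : ℕ, p.eval (k : ℝ) = (Nat.card (G.Coloring (Fin k)) : ℝ)) :
    -- vertices of degree five and four
    (∀ v : V, (G.neighborSet v).ncard = 5 →
      3 * Nat.card ((remove G v).Coloring (Fin 5)) ≤
        4 * Nat.card {c : (remove G v).Coloring (Fin 5) // Extends c}) ∧
    (∀ v : V, (G.neighborSet v).ncard = 4 →
      4 * Nat.card ((remove G v).Coloring (Fin 5)) ≤ 3 * Nat.card (G.Coloring (Fin 5))) ∧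
    -- real values below five
    (∀ q : ℝ, 4 ≤ q → q ≤ 5 → 2 * Nat.card V * (5 - q) ≤ 3 →
      (1 - 2 / 3 * Nat.card V * (5 - q)) * p.eval 5 ≤ p.eval q ∧ p.eval q ≤ p.eval 5) ∧
    -- positivity
    (∀ k : ℕ, LargeMinorsDegLeFour G k → ∀ q : ℝ, 4 < q → 2 * k * (5 - q) < 3 → 0 < p.eval q) ∧
    LargeMinorsDegLeFour G (Nat.card V) ∧
    -- complex values
    (∀ z : ℂ, ‖aeval z p - ((p.eval 5 : ℝ) : ℂ)‖ ≤
      (Real.exp (2 * ‖z - 5‖ * Nat.card V / 3) - 1) * p.eval 5) ∧
    (∀ z : ℂ, 2 * Nat.card V * ‖z - 5‖ < 3 * Real.log 2 → aeval z p ≠ 0) := by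
  obtain ⟨f, γ, h1, h2, h3⟩ := hG
  have hW := Pool.Agent.Y865.RF.pl V G f γ ⟨h1, h2, h3⟩
  have hpc : p = Pool.Agent.H207R2.BL.chr G := Pool.Agent.H207R2.BL.eq_chr hp
  subst hpc
  have hcol : ∀ (W : Type) (K : SimpleGraph W),
      Nonempty (K.Coloring (Fin 5) ≃ {g : W → Fin 5 // Pool.Agent.H207R2.BL.Proper K g}) := by
    intro W K
    exact ⟨⟨fun c => ⟨fun x => c x, fun x y h => c.valid h⟩,
      fun g => SimpleGraph.Coloring.mk g.1 (fun {x y} h => g.2 x y h),
      fun c => by ext; rfl, fun g => rfl⟩⟩
  refine ⟨?_, ?_, ?_, ?_, Pool.Agent.Q262.BL.big_card G 4, Pool.Agent.Q262.BL.disc G hW,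
    Pool.Agent.Q262.BL.disc_ne G hW⟩
  · intro v hv
    have h := Pool.Agent.Q262.BL.extend_five G v hW hv
    obtain ⟨e⟩ := hcol _ (remove G v)
    have e1 : Nat.card ((remove G v).Coloring (Fin 5)) = Nat.card (Pool.Agent.Q262.BL.PP G v) :=
      Nat.card_congr e
    have e2 : Nat.card {g : Pool.Agent.Q262.BL.PP G v //
          ∃ y : Pool.Agent.Q262.BL.YY G, Pool.Agent.Q262.BL.res G v y = g} ≤
        Nat.card {c : (remove G v).Coloring (Fin 5) // Extends c} := by
      have : Finite ((remove G v).Coloring (Fin 5)) := Finite.of_equiv _ e.symm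
      refine Nat.card_le_card_of_injective (fun g =>
        ⟨SimpleGraph.Coloring.mk g.1.1 (fun {x y} h => g.1.2 x y h), ?_⟩) ?_
      · obtain ⟨y, hy⟩ := g.2
        refine ⟨SimpleGraph.Coloring.mk y.1 (fun {a b} h => y.2 a b h), fun x => ?_⟩
        exact congrFun (congrArg Subtype.val hy) x
      · intro g h he
        apply Subtype.ext
        apply Subtype.ext
        funext x
        exact DFunLike.congr_fun (congrArg Subtype.val he) x
    rw [e1]
    omega
  · intro v hv
    have h := Pool.Agent.Q262.BL.ratio_four G v hW hv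
    obtain ⟨e⟩ := hcol _ (remove G v)
    obtain ⟨e'⟩ := hcol _ G
    rw [Nat.card_congr e, Nat.card_congr e']
    exact h
  · intro q hq4 hq5 hq
    have h := Pool.Agent.Q262.BL.near (5 - q) (by linarith) (by linarith) _ V G rfl hW hq
    have h5 : (5 : ℝ) - (5 - q) = q := by ring
    rw [h5] at h
    exact h
  · intro k hk q hq hkq
    exact Pool.Agent.Q262.BL.big_pos k q hq hkq _ V G rfl hW hk

end Pool.Agent.Results.MP_0d034c_co.ExtendingColourings
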